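import Pool.Agent.Lib.MP_5349a4_pr.M.Iface3
import Pool.Agent.Lib.MP_5349a4_pr.M.Base

/-!
# Measurability toolkit for sections 7-8 (helper53)
-/

set_option autoImplicit false
open MeasureTheory Set
open scoped ENNReal NNReal

namespace Pool.Agent.Lib.MP_5349a4_pr.H53

section Gen
variable {E : Type} [MeasurableSpace E] {X : Type} [MeasurableSpace X]

theorem meas_ex (hM : MSumStatement) {φ : X → Cfg E} (hφ : Measurable φ) {S : X → E → Prop}
    (hS : MeasurableSet {q : X × E | S q.1 q.2}) : MeasurableSet {x | ∃ p ∈ pt (φ x), S x p} := by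
  have h := hM.2.1 X E (fun x p _ => S x p)
    ((measurable_fst.prodMk measurable_snd.fst) hS)
  exact (measurable_id.prodMk hφ) h

theorem meas_all (hM : MSumStatement) {φ : X → Cfg E} (hφ : Measurable φ) {S : X → E → Prop}
    (hS : MeasurableSet {q : X × E | S q.1 q.2}) : MeasurableSet {x | ∀ p ∈ pt (φ x), S x p} := by
  have h := (meas_ex hM hφ (S := fun x p => ¬ S x p) hS.compl).compl
  have e : {x | ∀ p ∈ pt (φ x), S x p} = {x | ∃ p ∈ pt (φ x), ¬ S x p}ᶜ := by
    ext x
    simp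
  rw [e]
  exact h

theorem meas_sum [StandardBorelSpace E] (hM : MSumStatement) {φ : X → Cfg E} (hφ : Measurable φ)
    {g : X → E → ℝ≥0∞} (hg : Measurable fun q : X × E => g q.1 q.2) :
    Measurable fun x => ∑' p : (pt (φ x) : Set E), g x p := by
  have h := hM.1 X E (fun x p _ => g x p) (hg.comp (measurable_fst.prodMk measurable_snd.fst))
  exact h.comp (measurable_id.prodMk hφ)

/-- membership in the configuration -/
theorem meas_mem [StandardBorelSpace E] (hM : MSumStatement) {φ : X → Cfg E} (hφ : Measurable φ)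
    {a : X → E} (ha : Measurable a) : MeasurableSet {x | a x ∈ pt (φ x)} := by
  have h := meas_ex hM hφ (S := fun x p => p = a x)
    (measurableSet_eq_fun measurable_snd (ha.comp measurable_fst))
  have e : {x | a x ∈ pt (φ x)} = {x | ∃ p ∈ pt (φ x), p = a x} := by
    ext x
    constructor
    · intro hx; exact ⟨a x, hx, rfl⟩
    · rintro ⟨p, hp, rfl⟩; exact hp
  rw [e]
  exact h

theorem meas_con [StandardBorelSpace E] (hC : ConMStatement) {adj : E → E → Prop} (hadj : MAdj adj)
    {φ : X → Cfg E} (hφ : Measurable φ) {a b : X → E} (ha : Measurable a) (hb : Measurable b) :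
    MeasurableSet {x | Con adj (pt (φ x)) (a x) (b x)} :=
  (ha.prodMk (hb.prodMk hφ)) (hC E adj hadj).1

omit [MeasurableSpace E] in
/-- membership in a cluster in terms of `Con` -/
theorem mem_cl_iff (adj : E → E → Prop) (P : Set E) (x p : E) :
    p ∈ cl adj P x ↔ p = x ∨ (p ∈ P ∧ Con adj P x p) := by
  unfold cl Con
  constructor
  · intro h
    rcases Relation.ReflTransGen.cases_tail (show Relation.ReflTransGen (step adj P) x p from h)
      with h | ⟨b, hb, hs⟩
    · exact Or.inl h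
    · exact Or.inr ⟨hs.2, b, hb, hs.1⟩
  · rintro (rfl | ⟨hp, a, ha, hap⟩)
    · exact Relation.ReflTransGen.refl
    · exact Relation.ReflTransGen.tail ha ⟨hap, hp⟩

theorem meas_cl [StandardBorelSpace E] (hM : MSumStatement) (hC : ConMStatement)
    {adj : E → E → Prop} (hadj : MAdj adj)
    {φ : X → Cfg E} (hφ : Measurable φ) {a b : X → E} (ha : Measurable a) (hb : Measurable b) :
    MeasurableSet {x | b x ∈ cl adj (pt (φ x)) (a x)} := by
  have e : {x | b x ∈ cl adj (pt (φ x)) (a x)}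
      = {x | b x = a x} ∪ ({x | b x ∈ pt (φ x)} ∩ {x | Con adj (pt (φ x)) (a x) (b x)}) := by
    ext x
    exact mem_cl_iff adj _ _ _
  rw [e]
  exact (measurableSet_eq_fun hb ha).union ((meas_mem hM hφ hb).inter (meas_con hC hadj hφ ha hb))

theorem meas_union (hO : MOpsStatement) {φ ψ : X → Cfg E} (hφ : Measurable φ) (hψ : Measurable ψ) :
    ∃ χ : X → Cfg E, Measurable χ ∧ ∀ x, pt (χ x) = pt (φ x) ∪ pt (ψ x) := by
  obtain ⟨u, hu, hu'⟩ := hO.1 E
  exact ⟨fun x => u (φ x, ψ x), hu.comp (hφ.prodMk hψ), fun x => hu' _ _⟩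

theorem meas_insert (hO : MOpsStatement) {φ : X → Cfg E} {a : X → E} (hφ : Measurable φ)
    (ha : Measurable a) :
    ∃ χ : X → Cfg E, Measurable χ ∧ ∀ x, pt (χ x) = insert (a x) (pt (φ x)) := by
  obtain ⟨u, hu, hu'⟩ := hO.2.1 E
  exact ⟨fun x => u (a x, φ x), hu.comp (ha.prodMk hφ), fun x => hu' _ _⟩

theorem meas_restr (hR : MRestrStatement) {φ : X → Cfg E} (hφ : Measurable φ) {A : Set (X × E)}
    (hA : MeasurableSet A) :
    ∃ χ : X → Cfg E, Measurable χ ∧ ∀ x, pt (χ x) = {e | e ∈ pt (φ x) ∧ (x, e) ∈ A} := by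
  obtain ⟨u, hu, hu'⟩ := hR X E A hA
  exact ⟨fun x => u (x, φ x), hu.comp (measurable_id.prodMk hφ), fun x => hu' _ _⟩

end Gen

section Eu
variable {d : ℕ} {X : Type} [MeasurableSpace X]

theorem LF_of_finite {P : Set (Eu d)} (h : P.Finite) : LF P := fun _ _ => h.inter_of_left _

theorem meas_inv (hI : InvMStatement) {φ : X → Cfg (Eu d)} (hφ : Measurable φ) {a : X → Eu d}
    (ha : Measurable a) (o : Eu d) (m : ℕ) : MeasurableSet {x | a x ∈ inv (pt (φ x)) o m} :=
  (measurable_const.prodMk (ha.prodMk hφ)) (hI d m).1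

theorem mem_inv_self (P : Set (Eu d)) (o : Eu d) (m : ℕ) : o ∈ inv P o m := by
  induction m with
  | zero => exact rfl
  | succ k ih => exact Or.inl ih

/-- membership in a neighbourhood of the invaded set -/
theorem meas_nbd_inv (hM : MSumStatement) (hI : InvMStatement) (hD : InvDStatement)
    {φ : X → Cfg (Eu d)} (hφ : Measurable φ) {a : X → Eu d}
    (ha : Measurable a) (o : Eu d) (m : ℕ) (r : ℝ) :
    MeasurableSet {x | a x ∈ nbd r (inv (pt (φ x)) o m)} := by
  have e : {x | a x ∈ nbd r (inv (pt (φ x)) o m)}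
      = {x | dist (a x) o ≤ r} ∪ {x | ∃ p ∈ pt (φ x), p ∈ inv (pt (φ x)) o m ∧ dist (a x) p ≤ r} := by
    ext x
    constructor
    · rintro ⟨u, hu, hd⟩
      have hL := LF_of_finite (pt_finite (φ x))
      rcases (((hD d _ (pt (φ x)) o hL hL).1 m).2.1 hu) with h | h
      · left
        rw [h] at hd; exact hd
      · exact Or.inr ⟨u, h, hu, hd⟩
    · rintro (h | ⟨p, -, hp, hd⟩)
      · exact ⟨o, mem_inv_self _ _ _, h⟩
      · exact ⟨p, hp, hd⟩
  rw [e]
  apply MeasurableSet.union
  · exact measurableSet_le (ha.dist measurable_const) measurable_const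
  · apply meas_ex hM hφ
    apply MeasurableSet.inter
    · exact meas_inv hI (hφ.comp measurable_fst) measurable_snd o m
    · exact measurableSet_le ((ha.comp measurable_fst).dist measurable_snd) measurable_const

/-- membership in the neighbourhood of `LLs` -/
theorem meas_nbd_LLs (hM : MSumStatement) (hC : ConMStatement) (hO : MOpsStatement)
    {φ ψ : X → Cfg (Eu d)} (hφ : Measurable φ) (hψ : Measurable ψ) {a : X → Eu d}
    (ha : Measurable a) (r : ℝ) :
    MeasurableSet {x | a x ∈ nbd r (LLs r (pt (φ x)) (pt (ψ x)) ∅)} := by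
  obtain ⟨χ, hχ, hχ'⟩ := meas_union hO hφ hψ
  have e : {x | a x ∈ nbd r (LLs r (pt (φ x)) (pt (ψ x)) ∅)}
      = {x | ∃ y ∈ pt (χ x), (∃ p ∈ pt (ψ x), p ∈ cl (ad r) (pt (χ x)) y) ∧ dist (a x) y ≤ r} := by
    ext x
    unfold nbd LLs
    simp only [mem_ofPred_eq, sdiff_empty, ← hχ']
    constructor
    · rintro ⟨u, ⟨hu, hu'⟩, hd⟩
      exact ⟨u, hu, hu', hd⟩
    · rintro ⟨u, hu, hu', hd⟩
      exact ⟨u, ⟨hu, hu'⟩, hd⟩
  rw [e]
  apply meas_ex hM hχ
  apply MeasurableSet.inter
  · apply meas_ex hM (hψ.comp measurable_fst)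
    exact meas_cl hM hC (madj_ad r) ((hχ.comp measurable_fst).comp measurable_fst)
      (measurable_snd.comp measurable_fst) measurable_snd
  · exact measurableSet_le ((ha.comp measurable_fst).dist measurable_snd) measurable_const

/-- description of `CLr` of the invaded set -/
theorem mem_CLr_iff (hD : InvDStatement) (P : Set (Eu d)) (hP : P.Finite) (o : Eu d) (m : ℕ)
    (r : ℝ) (a : Eu d) : a ∈ CLr r P (inv P o m) ↔
      a ∈ cl (ad r) P o ∨ ∃ q ∈ P, q ∈ inv P o m ∧ a ∈ cl (ad r) P q := by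
  constructor
  · rintro ⟨x, hx, hax⟩
    have hL := LF_of_finite hP
    rcases (((hD d _ P o hL hL).1 m).2.1 hx) with h | h
    · left; rwa [h] at hax
    · exact Or.inr ⟨x, h, hx, hax⟩
  · rintro (h | ⟨q, -, hq, h⟩)
    · exact ⟨o, mem_inv_self _ _ _, h⟩
    · exact ⟨q, hq, h⟩

theorem meas_CLr (hM : MSumStatement) (hC : ConMStatement) (hI : InvMStatement)
    (hD : InvDStatement) {φ : X → Cfg (Eu d)} (hφ : Measurable φ) {a : X → Eu d}
    (ha : Measurable a) (o : Eu d) (m : ℕ) (r : ℝ) :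
    MeasurableSet {x | a x ∈ CLr r (pt (φ x)) (inv (pt (φ x)) o m)} := by
  have e : {x | a x ∈ CLr r (pt (φ x)) (inv (pt (φ x)) o m)}
      = {x | a x ∈ cl (ad r) (pt (φ x)) o} ∪
        {x | ∃ q ∈ pt (φ x), q ∈ inv (pt (φ x)) o m ∧ a x ∈ cl (ad r) (pt (φ x)) q} := by
    ext x
    exact mem_CLr_iff hD _ (pt_finite _) o m r _
  rw [e]
  apply MeasurableSet.union
  · exact meas_cl hM hC (madj_ad r) hφ measurable_const ha
  · apply meas_ex hM hφ
    apply MeasurableSet.inter
    · exact meas_inv hI (hφ.comp measurable_fst) measurable_snd o m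
    · exact meas_cl hM hC (madj_ad r) (hφ.comp measurable_fst) measurable_snd
        (ha.comp measurable_fst)

theorem CLr_subset (hD : InvDStatement) (P : Set (Eu d)) (hP : P.Finite) (o : Eu d) (m : ℕ)
    (r : ℝ) : CLr r P (inv P o m) ⊆ insert o P := by
  rintro p ⟨x, hx, hpx⟩
  rcases (mem_cl_iff (ad r) P x p).1 hpx with h | h
  · rw [h]
    have hL := LF_of_finite hP
    exact ((hD d _ P o hL hL).1 m).2.1 hx
  · exact Or.inr h.1

/-- the number of points of `CLr` as a sum over the configuration -/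
theorem ncard_CLr (hD : InvDStatement) (P : Set (Eu d)) (hP : P.Finite) (o : Eu d) (m : ℕ)
    (r : ℝ) : (((CLr r P (inv P o m)).ncard : ℕ) : ℝ≥0∞) =
      1 + ∑' p : P, ind ((p : Eu d) ≠ o ∧ (p : Eu d) ∈ CLr r P (inv P o m)) := by
  classical
  set K := CLr r P (inv P o m) with hK
  have hKs : K ⊆ insert o P := CLr_subset hD P hP o m r
  have hoK : o ∈ K := ⟨o, mem_inv_self _ _ _, Relation.ReflTransGen.refl⟩
  have hKf : K.Finite := (hP.insert o).subset hKs
  have e1 : ∑' p : P, ind ((p : Eu d) ≠ o ∧ (p : Eu d) ∈ K) = ((K \ {o}).ncard : ℕ) := by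
    have := hP.fintype
    rw [tsum_fintype]
    have e2 : ∀ p : P, ind ((p : Eu d) ≠ o ∧ (p : Eu d) ∈ K)
        = if ((p : Eu d) ∈ K \ {o}) then 1 else 0 := by
      intro p
      unfold ind
      congr 1
      simp only [mem_sdiff, mem_singleton_iff, eq_iff_iff]
      tauto
    simp_rw [e2]
    rw [Finset.sum_ite, Finset.sum_const_zero, add_zero, Finset.sum_const, nsmul_eq_mul, mul_one]
    congr 1
    rw [← Set.ncard_coe_finset]
    have : ((Finset.univ.filter fun p : P => (p : Eu d) ∈ K \ {o} : Finset P) : Set P)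
        = {p : P | (p : Eu d) ∈ K \ {o}} := by
      ext p; simp
    rw [this, ← Set.ncard_image_of_injective _ Subtype.val_injective]
    congr 1
    ext z
    constructor
    · rintro ⟨p, hp, rfl⟩; exact hp
    · intro hz
      rcases hKs hz.1 with h | h
      · exact absurd h hz.2
      · exact ⟨⟨z, h⟩, hz, rfl⟩
  rw [e1, ← Set.ncard_sdiff_singleton_add_one hoK hKf]
  push_cast
  ring

theorem meas_ncard_CLr (hM : MSumStatement) (hC : ConMStatement) (hI : InvMStatement)
    (hD : InvDStatement) {φ : X → Cfg (Eu d)} (hφ : Measurable φ)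
    (o : Eu d) (m n : ℕ) (r : ℝ) :
    MeasurableSet {x | (CLr r (pt (φ x)) (inv (pt (φ x)) o m)).ncard ≤ n} := by
  have e : {x | (CLr r (pt (φ x)) (inv (pt (φ x)) o m)).ncard ≤ n}
      = {x | 1 + ∑' p : (pt (φ x) : Set (Eu d)), ind ((p : Eu d) ≠ o ∧
          (p : Eu d) ∈ CLr r (pt (φ x)) (inv (pt (φ x)) o m)) ≤ (n : ℝ≥0∞)} := by
    ext x
    simp only [mem_ofPred_eq]
    rw [← ncard_CLr hD _ (pt_finite _) o m r, Nat.cast_le]
  rw [e]
  apply measurableSet_le _ measurable_const
  apply Measurable.const_add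
  apply meas_sum hM hφ
    (g := fun x p => ind (p ≠ o ∧ p ∈ CLr r (pt (φ x)) (inv (pt (φ x)) o m)))
  apply measurable_ind
  apply MeasurableSet.inter
  · exact (measurableSet_eq_fun measurable_snd measurable_const).compl
  · exact meas_CLr hM hC hI hD (hφ.comp measurable_fst) measurable_snd o m r

theorem measurable_nbd_finite {K : Set (Eu d)} (hK : K.Finite) (r : ℝ) :
    MeasurableSet (nbd r K) := by
  have : nbd r K = ⋃ u ∈ K, Metric.closedBall u r := by
    ext e
    simp [nbd]
  rw [this]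
  exact hK.measurableSet_biUnion fun u _ => Metric.isClosed_closedBall.measurableSet

end Eu

end Pool.Agent.Lib.MP_5349a4_pr.H53
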