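import Pool.Agent.Lib.MP_5349a4_pr.M.Iface2
import Pool.Agent.Lib.MP_5349a4_pr.M.Base

/-!
# SLB: Simon-Lieb for a ball around the starting point; properties of the exit density
-/

set_option autoImplicit false
open MeasureTheory Set
open scoped ENNReal NNReal

namespace Pool.Agent.Lib.MP_5349a4_pr.H53

section
variable {d : ℕ}

/-- translation of a two-point function in a ball -/
theorem tau_bal (hT : TauFacts d) (lam : ℝ≥0) (x y : Eu d) (s : ℝ) :
    tau lam (bal x s) x y = tau lam (bal 0 s) 0 (y - x) := by
  have h := hT.iso lam (bal 0 s) 0 (y - x) (IsometryEquiv.addLeft x) (dom_bal _ _)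
  have himg : (IsometryEquiv.addLeft x : Eu d ≃ᵢ Eu d) '' bal 0 s = bal x s := by
    unfold bal
    rw [IsometryEquiv.image_closedBall]
    simp
  rw [himg] at h
  simpa using h

theorem measurable_tau_right (hT : TauFacts d) (lam : ℝ≥0) {V : Set (Eu d)} (hV : Dom V)
    (x : Eu d) : Measurable fun y => tau lam V x y := by
  have h := (hT.meas lam V hV).comp (measurable_prodMk_left (x := x))
  exact h

theorem measurable_tau_left (hT : TauFacts d) (lam : ℝ≥0) {V : Set (Eu d)} (hV : Dom V)
    (y : Eu d) : Measurable fun x => tau lam V x y := by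
  have h := (hT.meas lam V hV).comp (measurable_prodMk_right (y := y))
  exact h

theorem measurable_ex (hT : TauFacts d) (lam : ℝ≥0) (s : ℝ) :
    Measurable (ex lam s : Eu d → ℝ≥0∞) := by
  unfold ex
  apply Measurable.mul
  · apply Measurable.const_mul
    exact measurable_tau_right hT lam (dom_bal 0 s) 0
  · exact measurable_ind (measurableSet_lt measurable_const measurable_norm)

theorem ex_zero (hd : 1 ≤ d) (hT : TauFacts d) (lam : ℝ≥0) (y : Eu d) :
    ex lam 0 y = lam * ind (0 < ‖y‖ ∧ ‖y‖ ≤ 1) := by
  have : Nontrivial (Eu d) := by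
    have : Nonempty (Fin d) := ⟨⟨0, by omega⟩⟩
    infer_instance
  have h0 : volume (bal (0 : Eu d) 0) = 0 := by
    unfold bal
    rw [Metric.closedBall_zero]
    exact measure_singleton _
  unfold ex
  rw [hT.null lam (bal 0 0) 0 y (dom_bal _ _) h0, dist_zero_left, mul_assoc, ← ind_and]
  congr 1
  exact ind_congr and_comm

theorem wt_sl (hT : TauFacts d) (lam : ℝ≥0) (V : Set (Eu d)) (f : Eu d → ℝ≥0∞) (x : Eu d)
    (s : ℝ) (hV : Dom V) (hf : Measurable f) :
    wt lam V f x ≤ wt lam (V ∩ bal x s) f x +
        ∫⁻ y, ex lam s y * (ind (x + y ∈ V) * wt lam V f (x + y)) := by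
  set V0 := V ∩ bal x s with hV0
  have hD0 : Dom V0 := hV.inter (dom_bal _ _)
  have hsub : V0 ⊆ V := inter_subset_left
  have hmT : Measurable fun q : Eu d × Eu d => tau lam V q.1 q.2 := hT.meas lam V hV
  have hm0 := measurable_tau_right hT lam hD0 x
  have hwm : Measurable fun z => wt lam V f z := by
    unfold wt
    apply hf.add
    apply Measurable.const_mul
    apply Measurable.lintegral_prod_right
    exact hmT.mul (hf.comp measurable_snd)
  have hm0f : Measurable fun y => tau lam V0 x y * f y := hm0.mul hf
  -- first bound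
  have h1 : (lam : ℝ≥0∞) * ∫⁻ y in V, tau lam V x y * f y
      ≤ lam * (∫⁻ y in V0, tau lam V0 x y * f y)
        + lam * ∫⁻ z in V \ V0, tau lam V0 x z * wt lam V f z := by
    have e1 : ∫⁻ y in V, tau lam V x y * f y
        ≤ (∫⁻ y in V, tau lam V0 x y * f y)
          + ∫⁻ y in V, (lam * ∫⁻ z in V \ V0, tau lam V0 x z * tau lam V z y) * f y := by
      rw [← lintegral_add_left hm0f]
      apply lintegral_mono
      intro y
      show tau lam V x y * f y ≤ tau lam V0 x y * f y
        + (lam * ∫⁻ z in V \ V0, tau lam V0 x z * tau lam V z y) * f y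
      rw [← add_mul]
      gcongr
      exact hT.sl lam V0 V x y hD0 hV hsub
    have e2 : ∫⁻ y in V, tau lam V0 x y * f y
        = (∫⁻ y in V0, tau lam V0 x y * f y) + ∫⁻ y in V \ V0, tau lam V0 x y * f y := by
      rw [← lintegral_union (hV.1.diff hD0.1) disjoint_sdiff_right, union_sdiff_cancel hsub]
    have e3 : ∫⁻ y in V, (lam * ∫⁻ z in V \ V0, tau lam V0 x z * tau lam V z y) * f y
        = ∫⁻ z in V \ V0, tau lam V0 x z * (lam * ∫⁻ y in V, tau lam V z y * f y) := by
      have e4 : ∀ y, (lam * ∫⁻ z in V \ V0, tau lam V0 x z * tau lam V z y) * f y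
          = ∫⁻ z in V \ V0, lam * (tau lam V0 x z * (tau lam V z y * f y)) := by
        intro y
        have q1 : Measurable fun z => tau lam V0 x z * tau lam V z y :=
          hm0.mul (measurable_tau_left hT lam hV y)
        rw [← lintegral_const_mul _ q1, ← lintegral_mul_const _ (q1.const_mul _)]
        apply lintegral_congr
        intro z
        ring
      have e5 : ∀ z, tau lam V0 x z * (lam * ∫⁻ y in V, tau lam V z y * f y)
          = ∫⁻ y in V, lam * (tau lam V0 x z * (tau lam V z y * f y)) := by
        intro z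
        have q1 : Measurable fun y => tau lam V z y * f y :=
          (measurable_tau_right hT lam hV z).mul hf
        rw [← lintegral_const_mul _ q1, ← lintegral_const_mul _ (q1.const_mul _)]
        apply lintegral_congr
        intro y
        ring
      simp_rw [e4, e5]
      apply lintegral_lintegral_swap
      apply Measurable.aemeasurable
      apply Measurable.const_mul
      apply Measurable.mul
      · exact hm0.comp measurable_snd
      · exact (hmT.comp (measurable_snd.prodMk measurable_fst)).mul (hf.comp measurable_fst)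
    calc (lam : ℝ≥0∞) * ∫⁻ y in V, tau lam V x y * f y
        ≤ lam * ((∫⁻ y in V, tau lam V0 x y * f y)
          + ∫⁻ y in V, (lam * ∫⁻ z in V \ V0, tau lam V0 x z * tau lam V z y) * f y) := by gcongr
      _ = lam * (∫⁻ y in V0, tau lam V0 x y * f y) + lam * ((∫⁻ y in V \ V0, tau lam V0 x y * f y)
          + ∫⁻ z in V \ V0, tau lam V0 x z * (lam * ∫⁻ y in V, tau lam V z y * f y)) := by
          rw [e2, e3]; ring
      _ = (lam : ℝ≥0∞) * (∫⁻ y in V0, tau lam V0 x y * f y)
        + lam * ∫⁻ z in V \ V0, tau lam V0 x z * wt lam V f z := by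
          rw [← lintegral_add_left hm0f]
          congr 2
          apply lintegral_congr
          intro z
          show tau lam V0 x z * f z + tau lam V0 x z * (lam * ∫⁻ y in V, tau lam V z y * f y)
            = tau lam V0 x z * (f z + lam * ∫⁻ y in V, tau lam V z y * f y)
          ring
  -- second bound
  have h2 : (lam : ℝ≥0∞) * ∫⁻ z in V \ V0, tau lam V0 x z * wt lam V f z
      ≤ ∫⁻ y, ex lam s y * (ind (x + y ∈ V) * wt lam V f (x + y)) := by
    have e1 : ∫⁻ y, ex lam s y * (ind (x + y ∈ V) * wt lam V f (x + y))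
        = ∫⁻ z, ex lam s (z - x) * (ind (z ∈ V) * wt lam V f z) := by
      rw [← lintegral_sub_right_eq_self (fun y => ex lam s y * (ind (x + y ∈ V) *
        wt lam V f (x + y))) x]
      apply lintegral_congr
      intro z
      simp
    have hm0w : Measurable fun z => tau lam V0 x z * wt lam V f z := hm0.mul hwm
    rw [e1, ← lintegral_const_mul _ hm0w, ← lintegral_mul_ind (hV.1.diff hD0.1)]
    apply lintegral_mono
    intro z
    show ind (z ∈ V \ V0) * (lam * (tau lam V0 x z * wt lam V f z))
      ≤ ex lam s (z - x) * (ind (z ∈ V) * wt lam V f z)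
    by_cases hz : z ∈ V \ V0
    · have hzs : s < ‖z - x‖ := by
        by_contra hcon
        apply hz.2
        refine ⟨hz.1, ?_⟩
        unfold bal
        rw [Metric.mem_closedBall, dist_eq_norm]
        exact not_lt.1 hcon
      rw [ind_of hz, ind_of hz.1, one_mul, one_mul]
      unfold ex
      rw [ind_of hzs, mul_one, ← tau_bal hT]
      calc (lam : ℝ≥0∞) * (tau lam V0 x z * wt lam V f z)
          ≤ lam * (tau lam (bal x s) x z * wt lam V f z) := by
            gcongr
            exact hT.mono lam V0 (bal x s) x z hD0 (dom_bal _ _) inter_subset_right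
        _ = _ := by ring
    · rw [ind_not hz, zero_mul]
      exact zero_le
  unfold wt at h1 h2 ⊢
  refine (add_le_add_right h1 (f x)).trans ?_
  rw [← add_assoc]
  exact add_le_add_right h2 _

end

/-- SLB. -/
theorem slb : SlbStatement := by
  intro d hd hT
  have : Nontrivial (Eu d) := by
    have : Nonempty (Fin d) := ⟨⟨0, by omega⟩⟩
    infer_instance
  refine ⟨fun lam V f x s hV hf _ => wt_sl hT lam V f x s hV hf, ?_, ?_, ?_, ?_, ?_⟩
  · intro lam s hs
    refine ⟨measurable_ex hT lam s, ?_, ?_⟩
    · intro e y
      have himg : (e.toIsometryEquiv : Eu d ≃ᵢ Eu d) '' bal 0 s = bal 0 s := by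
        unfold bal
        rw [IsometryEquiv.image_closedBall]
        simp
      have h := hT.iso lam (bal 0 s) 0 y e.toIsometryEquiv (dom_bal _ _)
      rw [himg] at h
      have h' : tau lam (bal 0 s) 0 (e y) = tau lam (bal 0 s) 0 y := by
        simpa using h
      unfold ex
      rw [h', e.norm_map]
    · intro y hy
      unfold ex at hy
      constructor
      · by_contra hcon
        exact hy (by rw [ind_not hcon, mul_zero])
      · by_contra hcon
        apply hy
        rw [hT.supp lam (bal 0 s) 0 y s (dom_bal _ _) hs subset_rfl (by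
          rw [dist_zero_left]; exact not_le.1 hcon), mul_zero, zero_mul]
  · intro lam
    unfold phi
    simp_rw [ex_zero hd hT lam]
    have hms : MeasurableSet {y : Eu d | 0 < ‖y‖ ∧ ‖y‖ ≤ 1} :=
      (measurableSet_lt measurable_const measurable_norm).inter
        (measurableSet_le measurable_norm measurable_const)
    rw [lintegral_const_mul _ (measurable_ind hms), lintegral_ind hms]
    congr 1
    have : {y : Eu d | 0 < ‖y‖ ∧ ‖y‖ ≤ 1} = bal 0 1 \ {0} := by
      ext y
      unfold bal
      simp only [mem_ofPred_eq, mem_sdiff, mem_closedBall_zero_iff, mem_singleton_iff, norm_pos_iff]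
      tauto
    rw [this, measure_sdiff_null (measure_singleton _)]
  · intro lam y
    exact ex_zero hd hT lam y
  · intro lam x r hr
    unfold vol wt
    congr 2
    have e1 : ∫⁻ y in bal x r, tau lam (bal x r) x y * 1
        = ∫⁻ y, ind (y - x ∈ bal (0 : Eu d) r) * (tau lam (bal 0 r) 0 (y - x) * 1) := by
      rw [← lintegral_mul_ind (dom_bal x r).1]
      apply lintegral_congr
      intro y
      rw [tau_bal hT]
      congr 1
      apply ind_congr
      unfold bal
      rw [Metric.mem_closedBall, mem_closedBall_zero_iff, dist_eq_norm]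
    rw [e1, lintegral_sub_right_eq_self (fun y => ind (y ∈ bal (0 : Eu d) r) *
      (tau lam (bal 0 r) 0 y * 1)) x, lintegral_mul_ind (dom_bal 0 r).1]
  · intro lam f x V V' hV hV' hsub
    unfold wt
    gcongr with y
    exact hT.mono lam V V' x y hV hV' hsub

end Pool.Agent.Lib.MP_5349a4_pr.H53
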