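import Pool.Agent.Lib.MP_5349a4_pr.M.H53.Meas

/-!
# SPR (8.2): the sprinkling lemma
-/

set_option autoImplicit false
open MeasureTheory Set
open scoped ENNReal NNReal

namespace Pool.Agent.Lib.MP_5349a4_pr.H53

section
variable {d : ℕ}

/-- the union of the three configurations -/
def U3 (q : Cfg (Eu d) × Cfg (Eu d) × Cfg (Eu d)) : Set (Eu d) := pt q.1 ∪ pt q.2.1 ∪ pt q.2.2

theorem U3_finite (q : Cfg (Eu d) × Cfg (Eu d) × Cfg (Eu d)) : (U3 q).Finite :=
  ((pt_finite _).union (pt_finite _)).union (pt_finite _)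

theorem exists_u3 (hO : MOpsStatement) : ∃ u : Cfg (Eu d) × Cfg (Eu d) × Cfg (Eu d) → Cfg (Eu d),
    Measurable u ∧ ∀ q, pt (u q) = U3 q := by
  obtain ⟨v, hv, hv'⟩ := meas_union hO (X := Cfg (Eu d) × Cfg (Eu d) × Cfg (Eu d))
    (φ := fun q => q.1) (ψ := fun q => q.2.1) measurable_fst measurable_snd.fst
  obtain ⟨u, hu, hu'⟩ := meas_union hO (X := Cfg (Eu d) × Cfg (Eu d) × Cfg (Eu d))
    (φ := v) (ψ := fun q => q.2.2) hv measurable_snd.snd
  exact ⟨u, hu, fun q => by rw [hu', hv']; rfl⟩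

/-- a sprinkled point in `N` near `K` creates a green point in `CLr` -/
theorem green_of_sprinkled {r r' : ℝ} (hr : r ≤ r') (A B C K : Set (Eu d)) (z : Eu d)
    (hz : z ∈ C) (hN : z ∈ nbd r (LLs r A B ∅)) (hK : z ∈ nbd r' K) :
    ∃ g ∈ B, g ∈ CLr r' (A ∪ B ∪ C) K := by
  obtain ⟨y, ⟨hy, p, hp, hpy⟩, hzy⟩ := hN
  obtain ⟨q, hq, hzq⟩ := hK
  refine ⟨p, hp.1, q, hq, ?_⟩
  have h1 : Relation.ReflTransGen (step (ad r') (A ∪ B ∪ C)) q z :=
    Relation.ReflTransGen.single ⟨by unfold ad; rwa [dist_comm], Or.inr hz⟩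
  have h2 : Relation.ReflTransGen (step (ad r') (A ∪ B ∪ C)) q y :=
    h1.tail ⟨by unfold ad; exact hzy.trans hr, Or.inl hy.1⟩
  have h3 : Relation.ReflTransGen (step (ad r') (A ∪ B ∪ C)) y p := by
    have hpy' : Relation.ReflTransGen (step (ad r) ((A ∪ B) \ ∅)) y p := hpy
    refine Relation.ReflTransGen.mono ?_ _ _ hpy'
    rintro a b ⟨h4, h5⟩
    exact ⟨by unfold ad at h4 ⊢; exact h4.trans hr, Or.inl h5.1⟩
  exact h2.trans h3

/-- superposition of three processes -/
theorem super3 (hSuper : SuperStatement) (hProb : ProbStatement) (hO : MOpsStatement)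
    (ρn ρg ρs : Measure (Eu d)) [IsFiniteMeasure ρn] [IsFiniteMeasure ρg] [IsFiniteMeasure ρs]
    (f : Set (Eu d) → ℝ≥0∞) (hf : CM f) :
    ∫⁻ q, f (U3 q) ∂((PL ρn).prod ((PL ρg).prod (PL ρs)))
      = ∫⁻ ω, f (pt ω) ∂PL (ρn + ρg + ρs) := by
  have := (hProb _ ρn).1
  have := (hProb _ ρg).1
  have := (hProb _ ρs).1
  obtain ⟨u, hu, hu'⟩ := exists_u3 (d := d) hO
  have hf' : Measurable fun ω : Cfg (Eu d) => f (pt ω) := hf
  have hm : Measurable fun q : Cfg (Eu d) × Cfg (Eu d) × Cfg (Eu d) => f (U3 q) := by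
    have : (fun q : Cfg (Eu d) × Cfg (Eu d) × Cfg (Eu d) => f (U3 q)) = fun q => f (pt (u q)) := by
      funext q; rw [hu']
    rw [this]
    exact hf'.comp hu
  obtain ⟨v, hv, hv'⟩ := hO.1 (Eu d)
  have hm2 : Measurable fun q : Cfg (Eu d) × Cfg (Eu d) => f (pt q.1 ∪ pt q.2) := by
    have : (fun q : Cfg (Eu d) × Cfg (Eu d) => f (pt q.1 ∪ pt q.2)) = fun q => f (pt (v q)) := by
      funext q; rw [← hv']
    rw [this]
    exact hf'.comp hv
  rw [lintegral_prod _ hm.aemeasurable, hSuper (Eu d) (ρn + ρg) ρs f hf,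
    hSuper (Eu d) ρn ρg (fun Q => ∫⁻ ω', f (Q ∪ pt ω') ∂PL ρs) hm2.lintegral_prod_right']
  apply lintegral_congr
  intro a
  have hma : Measurable fun q : Cfg (Eu d) × Cfg (Eu d) => f (U3 (a, q)) :=
    hm.comp measurable_prodMk_left
  rw [lintegral_prod _ hma.aemeasurable]
  rfl

/-- the bound for the green points in `CLr` -/
theorem green_bound (hSuper : SuperStatement) (hMecke : MeckeStatement) (hInvD : InvDStatement)
    (hInvM : InvMStatement) (hConM : ConMStatement) (hMSum : MSumStatement) (hO : MOpsStatement)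
    (hProb : ProbStatement) (ρn ρg ρs : Measure (Eu d)) [IsFiniteMeasure ρn] [IsFiniteMeasure ρg]
    [IsFiniteMeasure ρs] [NullSingletonClass ρn] [NullSingletonClass ρg] [NullSingletonClass ρs]
    (h : ℝ≥0) (r' : ℝ) (o : Eu d) (m n : ℕ) (H : Set (Eu d) → Prop)
    (hle : ρg ≤ h • (ρn + ρg + ρs)) (hH : ME H) :
    ((PL ρn).prod ((PL ρg).prod (PL ρs)))
      {q | H (U3 q) ∧ (CLr r' (U3 q) (inv (U3 q) o m)).ncard ≤ n ∧
        ∃ g ∈ pt q.2.1, g ∈ CLr r' (U3 q) (inv (U3 q) o m)}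
    ≤ n * h * ((PL ρn).prod ((PL ρg).prod (PL ρs))) {q | H (U3 q)} := by
  classical
  have := (hProb _ ρn).1
  have := (hProb _ ρg).1
  have := (hProb _ ρs).1
  have := (hProb _ (ρn + ρs)).1
  set μ := (PL ρn).prod ((PL ρg).prod (PL ρs)) with hμ
  set F : Eu d → Set (Eu d) → ℝ≥0∞ := fun x P =>
    ind (H P ∧ (CLr r' P (inv P o m)).ncard ≤ n ∧ x ∈ CLr r' P (inv P o m)) with hF
  have hFm : ∀ {X : Type} [MeasurableSpace X] (φ : X → Cfg (Eu d)) (a : X → Eu d),
      Measurable φ → Measurable a → Measurable fun x => F (a x) (pt (φ x)) := by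
    intro X _ φ a hφ ha
    apply measurable_ind
    apply MeasurableSet.inter
    · exact hφ hH
    · apply MeasurableSet.inter
      · exact meas_ncard_CLr hMSum hConM hInvM hInvD hφ o m n r'
      · exact meas_CLr hMSum hConM hInvM hInvD hφ ha o m r'
  -- version for functions which agree with a configuration
  have hFm' : ∀ {X : Type} [MeasurableSpace X] (φ : X → Cfg (Eu d)) (a : X → Eu d)
      (S : X → Set (Eu d)), Measurable φ → Measurable a → (∀ x, pt (φ x) = S x) →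
      Measurable fun x => F (a x) (S x) := by
    intro X _ φ a S hφ ha hS
    have : (fun x => F (a x) (S x)) = fun x => F (a x) (pt (φ x)) := by
      funext x; rw [hS]
    rw [this]
    exact hFm φ a hφ ha
  obtain ⟨u, hu, hu'⟩ := exists_u3 (d := d) hO
  -- the integrand
  set f3 : Cfg (Eu d) × Cfg (Eu d) × Cfg (Eu d) → ℝ≥0∞ := fun q =>
    ∑' g : (pt q.2.1 : Set (Eu d)), F g (U3 q) with hf3
  have hf3m : Measurable f3 :=
    meas_sum hMSum (X := Cfg (Eu d) × Cfg (Eu d) × Cfg (Eu d)) (φ := fun q => q.2.1)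
      measurable_snd.fst (g := fun q p => F p (U3 q))
      (hFm' (X := (Cfg (Eu d) × Cfg (Eu d) × Cfg (Eu d)) × Eu d) (fun q => u q.1) (fun q => q.2)
        (fun q => U3 q.1) (hu.comp measurable_fst) measurable_snd (fun q => hu' q.1))
  have h1 : μ {q | H (U3 q) ∧ (CLr r' (U3 q) (inv (U3 q) o m)).ncard ≤ n ∧
        ∃ g ∈ pt q.2.1, g ∈ CLr r' (U3 q) (inv (U3 q) o m)} ≤ ∫⁻ q, f3 q ∂μ := by
    calc _ ≤ μ {q | 1 ≤ f3 q} := by
          apply measure_mono
          rintro q ⟨hq1, hq2, g, hg, hgc⟩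
          have : F g (U3 q) = 1 := ind_of ⟨hq1, hq2, hgc⟩
          show 1 ≤ f3 q
          calc (1 : ℝ≥0∞) = F ((⟨g, hg⟩ : (pt q.2.1 : Set (Eu d))) : Eu d) (U3 q) := this.symm
            _ ≤ f3 q := ENNReal.le_tsum (⟨g, hg⟩ : (pt q.2.1 : Set (Eu d)))
      _ ≤ _ := by
          have := mul_meas_ge_le_lintegral (μ := μ) hf3m 1
          rwa [one_mul] at this
  -- rewriting the integral
  have h2 : ∫⁻ q, f3 q ∂μ = ∫⁻ x, ∫⁻ ω, F x (insert x (pt ω)) ∂PL (ρn + ρs + ρg) ∂ρg := by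
    rw [hμ, lintegral_prod _ hf3m.aemeasurable]
    have e1 : ∀ a, ∫⁻ q, f3 (a, q) ∂((PL ρg).prod (PL ρs))
        = ∫⁻ b, ∫⁻ c, f3 (a, b, c) ∂PL ρs ∂PL ρg := by
      intro a
      have hma : Measurable fun q : Cfg (Eu d) × Cfg (Eu d) => f3 (a, q) :=
        hf3m.comp measurable_prodMk_left
      rw [lintegral_prod _ hma.aemeasurable]
    simp_rw [e1]
    rw [lintegral_lintegral_swap]
    swap
    · have : Measurable fun q : (Cfg (Eu d) × Cfg (Eu d)) × Cfg (Eu d) => f3 (q.1.1, q.1.2, q.2) :=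
        hf3m.comp (measurable_fst.fst.prodMk (measurable_fst.snd.prodMk measurable_snd))
      exact this.lintegral_prod_right'.aemeasurable
    -- for fixed `b`, superpose `a` and `c`
    obtain ⟨v, hv, hv'⟩ := hO.1 (Eu d)
    set Ψ : Cfg (Eu d) → Set (Eu d) → ℝ≥0∞ := fun b Q =>
      ∑' g : (pt b : Set (Eu d)), F g (Q ∪ pt b) with hΨ
    have hΨm : Measurable fun q : Cfg (Eu d) × Cfg (Eu d) => Ψ q.1 (pt q.2) :=
      meas_sum hMSum (X := Cfg (Eu d) × Cfg (Eu d)) (φ := fun q => q.1) measurable_fst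
        (g := fun q p => F p (pt q.2 ∪ pt q.1))
        (hFm' (X := (Cfg (Eu d) × Cfg (Eu d)) × Eu d) (fun q => v (q.1.2, q.1.1)) (fun q => q.2)
          (fun q => pt q.1.2 ∪ pt q.1.1)
          (hv.comp (measurable_fst.snd.prodMk measurable_fst.fst)) measurable_snd
          (fun q => hv' _ _))
    have e2 : ∀ b, ∫⁻ a, ∫⁻ c, f3 (a, b, c) ∂PL ρs ∂PL ρn
        = ∫⁻ ω, Ψ b (pt ω) ∂PL (ρn + ρs) := by
      intro b
      rw [hSuper (Eu d) ρn ρs (Ψ b) (hΨm.comp measurable_prodMk_left)]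
      apply lintegral_congr; intro a
      apply lintegral_congr; intro c
      show ∑' g : (pt b : Set (Eu d)), F g (pt a ∪ pt b ∪ pt c)
        = ∑' g : (pt b : Set (Eu d)), F g (pt a ∪ pt c ∪ pt b)
      rw [union_right_comm]
    simp_rw [e2]
    rw [lintegral_lintegral_swap hΨm.aemeasurable]
    have e3 : ∀ ω, ∫⁻ b, Ψ b (pt ω) ∂PL ρg
        = ∫⁻ x, ∫⁻ b, F x (insert x (pt ω ∪ pt b)) ∂PL ρg ∂ρg := by
      intro ω
      have hg : Measurable fun q : Eu d × Cfg (Eu d) => F q.1 (pt ω ∪ pt q.2) :=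
        hFm' (X := Eu d × Cfg (Eu d)) (fun q => v (ω, q.2)) (fun q => q.1) (fun q => pt ω ∪ pt q.2)
          (hv.comp (measurable_const.prodMk measurable_snd)) measurable_fst (fun q => hv' _ _)
      rw [(hMecke (Eu d) ρg (fun x Q => F x (pt ω ∪ Q)) hg).1]
      apply lintegral_congr; intro x
      apply lintegral_congr; intro b
      rw [union_insert]
    simp_rw [e3]
    obtain ⟨w, hw, hw'⟩ := hO.2.1 (Eu d)
    have hG : Measurable fun q : (Cfg (Eu d) × Eu d) × Cfg (Eu d) =>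
        F q.1.2 (insert q.1.2 (pt q.1.1 ∪ pt q.2)) :=
      hFm' (X := (Cfg (Eu d) × Eu d) × Cfg (Eu d)) (fun q => w (q.1.2, v (q.1.1, q.2)))
        (fun q => q.1.2)
        (fun q => insert q.1.2 (pt q.1.1 ∪ pt q.2))
        (hw.comp (measurable_fst.snd.prodMk (hv.comp (measurable_fst.fst.prodMk measurable_snd))))
        measurable_fst.snd (fun q => by rw [hw', hv'])
    rw [lintegral_lintegral_swap hG.lintegral_prod_right'.aemeasurable]
    apply lintegral_congr; intro x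
    have hx : CM fun Q => F x (insert x Q) :=
      hFm' (fun q => w (x, q)) (fun _ => x) (fun q => insert x (pt q))
        (hw.comp (measurable_const.prodMk measurable_id)) measurable_const (fun q => hw' _ _)
    rw [hSuper (Eu d) (ρn + ρs) ρg (fun Q => F x (insert x Q)) hx]
  -- domination of `ρg`
  set ρ := ρn + ρg + ρs with hρ
  have hρ' : ρn + ρs + ρg = ρ := by rw [hρ, add_right_comm]
  have : NullSingletonClass ρ := by
    constructor
    intro x
    rw [hρ, Measure.add_apply, Measure.add_apply]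
    simp
  have hcard : ∀ P : Set (Eu d), P.Finite → ∑' p : P, F p P ≤ n * ind (H P) := by
    intro P hP
    by_cases hc : H P ∧ (CLr r' P (inv P o m)).ncard ≤ n
    · rw [ind_of hc.1, mul_one]
      have hsub : (P ∩ CLr r' P (inv P o m)).ncard ≤ n :=
        (Set.ncard_le_ncard inter_subset_right
          ((hP.insert o).subset (CLr_subset hInvD P hP o m r'))).trans hc.2
      have := hP.fintype
      rw [tsum_fintype]
      have e4 : ∀ p : P, F p P = if ((p : Eu d) ∈ CLr r' P (inv P o m)) then 1 else 0 := by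
        intro p
        show ind _ = _
        unfold ind
        congr 1
        simp only [hc.1, hc.2, true_and]
      simp_rw [e4]
      rw [Finset.sum_ite, Finset.sum_const_zero, add_zero, Finset.sum_const, nsmul_eq_mul, mul_one]
      have e5 : (Finset.univ.filter fun p : P => (p : Eu d) ∈ CLr r' P (inv P o m)).card
          = (P ∩ CLr r' P (inv P o m)).ncard := by
        rw [← Set.ncard_coe_finset]
        have : ((Finset.univ.filter fun p : P => (p : Eu d) ∈ CLr r' P (inv P o m) :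
            Finset P) : Set P) = {p : P | (p : Eu d) ∈ CLr r' P (inv P o m)} := by
          ext p; simp
        rw [this, ← Set.ncard_image_of_injective _ Subtype.val_injective]
        congr 1
        ext z
        constructor
        · rintro ⟨p, hp, rfl⟩; exact ⟨p.2, hp⟩
        · rintro ⟨h, hz⟩; exact ⟨⟨z, h⟩, hz, rfl⟩
      rw [e5]
      exact_mod_cast hsub
    · have e4 : ∀ p : P, F p P = 0 := by
        intro p
        apply ind_not
        rintro ⟨h1, h2, -⟩
        exact hc ⟨h1, h2⟩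
      simp_rw [e4]
      rw [tsum_zero]
      exact zero_le
  obtain ⟨w, hw, hw'⟩ := hO.2.1 (Eu d)
  have hHm : CM fun Q => ind (H Q) := measurable_ind hH
  calc _ ≤ ∫⁻ q, f3 q ∂μ := h1
    _ = ∫⁻ x, ∫⁻ ω, F x (insert x (pt ω)) ∂PL ρ ∂ρg := by rw [h2, hρ']
    _ ≤ ∫⁻ x, ∫⁻ ω, F x (insert x (pt ω)) ∂PL ρ ∂(h • ρ) := lintegral_mono' hle le_rfl
    _ = h * ∫⁻ x, ∫⁻ ω, F x (insert x (pt ω)) ∂PL ρ ∂ρ := by
        rw [lintegral_smul_measure]; rfl
    _ = h * ∫⁻ ω, ∑' p : (pt ω : Set (Eu d)), F p (pt ω) ∂PL ρ := by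
        rw [(hMecke (Eu d) ρ F (hFm (X := Eu d × Cfg (Eu d)) (fun q => q.2) (fun q => q.1)
          measurable_snd measurable_fst)).1]
    _ ≤ h * ∫⁻ ω, n * ind (H (pt ω)) ∂PL ρ := by
        gcongr with ω
        exact hcard _ (pt_finite ω)
    _ = n * h * ∫⁻ ω, ind (H (pt ω)) ∂PL ρ := by
        rw [lintegral_const_mul _ hHm]; ring
    _ = _ := by
        rw [← super3 hSuper hProb hO ρn ρg ρs (fun Q => ind (H Q)) hHm, lintegral_ind]
        have : {q : Cfg (Eu d) × Cfg (Eu d) × Cfg (Eu d) | H (U3 q)} = {q | H (pt (u q))} := by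
          ext q; simp only [mem_ofPred_eq, hu']
        rw [this]
        exact hu hH

/-- the bound for the void event -/
theorem void_bound (hCount : CountStatement) (hRes : ResStatement) (hInvD : InvDStatement)
    (hInvM : InvMStatement) (hConM : ConMStatement) (hMSum : MSumStatement) (hO : MOpsStatement)
    (hMR : MRestrStatement) (hProb : ProbStatement) (ρn ρg : Measure (Eu d))
    [IsFiniteMeasure ρn] [IsFiniteMeasure ρg] (lam₂ : ℝ≥0) (U : Set (Eu d)) (hU : Dom U)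
    (r r' q₀ : ℝ) (hr' : 0 ≤ r') (hq₀ : 0 ≤ q₀) (o : Eu d) (m : ℕ) :
    ((PL ρn).prod ((PL ρg).prod (PL (leb lam₂ U))))
      {q | (∀ z ∈ pt q.2.2, z ∈ nbd r (LLs r (pt q.1) (pt q.2.1) ∅) →
          z ∉ nbd r' (inv (U3 q) o m)) ∧
        ENNReal.ofReal q₀ ≤ volume (nbd r (LLs r (pt q.1) (pt q.2.1) ∅) ∩
          nbd r' (inv (U3 q) o m) ∩ U)}
    ≤ ENNReal.ofReal (Real.exp (-(lam₂ * q₀))) := by
  classical
  have := finite_leb (d := d) lam₂ hU.2
  have := (hProb _ ρn).1
  have := (hProb _ ρg).1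
  have := (hProb _ (leb lam₂ U)).1
  set ρs := leb lam₂ U with hρs
  set X := Cfg (Eu d) × Cfg (Eu d) × Cfg (Eu d) with hX
  set N : X → Set (Eu d) := fun q => nbd r (LLs r (pt q.1) (pt q.2.1) ∅) with hN
  have hNm : MeasurableSet {x : X × Eu d | x.2 ∈ N x.1} :=
    meas_nbd_LLs hMSum hConM hO (φ := fun x : X × Eu d => x.1.1) (ψ := fun x : X × Eu d => x.1.2.1)
      measurable_fst.fst measurable_fst.snd.fst measurable_snd r
  -- the configuration without the sprinkled points in `N`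
  obtain ⟨w1, hw1, hw1'⟩ := meas_union hO (X := X) (φ := fun q => q.1) (ψ := fun q => q.2.1)
    measurable_fst measurable_snd.fst
  obtain ⟨w2, hw2, hw2'⟩ := meas_restr hMR (X := X) (φ := fun q => q.2.2) measurable_snd.snd
    hNm.compl
  obtain ⟨w, hw, hw'⟩ := meas_union hO hw1 hw2
  have hwpt : ∀ q : X, pt (w q) = pt q.1 ∪ pt q.2.1 ∪ (pt q.2.2 \ N q) := by
    intro q
    rw [hw', hw1', hw2']
    rfl
  -- deletion
  have hdel : ∀ q : X, (∀ z ∈ pt q.2.2, z ∈ N q → z ∉ nbd r' (inv (U3 q) o m)) →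
      inv (U3 q) o m = inv (pt (w q)) o m := by
    intro q hq
    have hL := LF_of_finite (U3_finite q)
    have h1 := (hInvD d (U3 q) (U3 q) o hL hL).2.2.2.2.2.1 (U3 q \ pt (w q)) m ?_ m le_rfl
    · rw [← h1]
      congr 1
      rw [sdiff_sdiff_right_self]
      refine inter_eq_right.2 ?_
      rw [hwpt]
      exact union_subset_union_right _ sdiff_subset
    · rw [Set.disjoint_left]
      rintro z ⟨hz1, hz2⟩ hz3
      rw [hwpt] at hz2
      have hz4 : z ∈ pt q.2.2 ∧ z ∈ N q := by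
        rcases hz1 with h | h
        · exact absurd (Or.inl h) hz2
        · refine ⟨h, ?_⟩
          by_contra hcon
          exact hz2 (Or.inr ⟨h, hcon⟩)
      exact hq z hz4.1 hz4.2 ⟨z, hz3, by rw [dist_self]; exact hr'⟩
  set B : X → Set (Eu d) := fun q => nbd r' (inv (pt (w q)) o m) with hB
  have hBm : MeasurableSet {x : X × Eu d | x.2 ∈ B x.1} :=
    meas_nbd_inv hMSum hInvM hInvD (φ := fun x : X × Eu d => w x.1) (hw.comp measurable_fst)
      measurable_snd o m r'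
  have hUm : MeasurableSet {x : X × Eu d | x.2 ∈ U} := measurable_snd hU.1
  have hvolm : Measurable fun q : X => volume (N q ∩ B q ∩ U) := by
    have := measurable_measure_prodMk_left (ν := (volume : Measure (Eu d)))
      ((hNm.inter hBm).inter hUm)
    exact this
  set E2 : Set X := {q | (∀ z ∈ pt q.2.2, z ∈ N q → z ∉ B q) ∧
    ENNReal.ofReal q₀ ≤ volume (N q ∩ B q ∩ U)} with hE2
  have hE2m : MeasurableSet E2 := by
    apply MeasurableSet.inter
    · exact meas_all hMSum (φ := fun q : X => q.2.2) measurable_snd.snd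
        (S := fun q z => z ∈ N q → z ∉ B q) (hNm.compl.union hBm.compl |>.congr (by
          ext x; simp only [mem_union, mem_compl_iff, mem_ofPred_eq]; tauto))
    · exact measurableSet_le measurable_const hvolm
  have h1 : ((PL ρn).prod ((PL ρg).prod (PL ρs)))
      {q | (∀ z ∈ pt q.2.2, z ∈ nbd r (LLs r (pt q.1) (pt q.2.1) ∅) →
          z ∉ nbd r' (inv (U3 q) o m)) ∧
        ENNReal.ofReal q₀ ≤ volume (nbd r (LLs r (pt q.1) (pt q.2.1) ∅) ∩
          nbd r' (inv (U3 q) o m) ∩ U)} ≤ ((PL ρn).prod ((PL ρg).prod (PL ρs))) E2 := by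
    apply measure_mono
    rintro q ⟨hq1, hq2⟩
    have h3 := hdel q hq1
    refine ⟨fun z hz hzN => ?_, ?_⟩
    · have := hq1 z hz hzN
      rwa [h3] at this
    · rwa [h3] at hq2
  refine h1.trans ?_
  have hE2i : ((PL ρn).prod ((PL ρg).prod (PL ρs))) E2
      = ∫⁻ q, ind (q ∈ E2) ∂((PL ρn).prod ((PL ρg).prod (PL ρs))) :=
    (lintegral_ind (p := fun q => q ∈ E2) hE2m).symm
  rw [hE2i]
  have hindm : Measurable fun q : X => ind (q ∈ E2) := measurable_ind hE2m
  rw [lintegral_prod _ hindm.aemeasurable]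
  have hinner : ∀ a b : Cfg (Eu d), ∫⁻ c, ind ((a, b, c) ∈ E2) ∂PL ρs
      ≤ ENNReal.ofReal (Real.exp (-(lam₂ * q₀))) := by
    intro a b
    set N0 : Set (Eu d) := nbd r (LLs r (pt a) (pt b) ∅) with hN0
    have hN0m : MeasurableSet N0 := by
      apply measurable_nbd_finite
      exact ((pt_finite a).union (pt_finite b)).subset (fun y hy => hy.1.1)
    set B0 : Set (Eu d) → Set (Eu d) := fun Y => nbd r' (inv (pt a ∪ pt b ∪ Y) o m) with hB0
    set g : Set (Eu d) → Set (Eu d) → ℝ≥0∞ := fun Y Z =>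
      ind ((∀ z ∈ Z, z ∉ B0 Y) ∧ ENNReal.ofReal q₀ ≤ volume (N0 ∩ B0 Y ∩ U)) with hg
    have hgm : Measurable fun q : Cfg (Eu d) × Cfg (Eu d) => g (pt q.1) (pt q.2) := by
      obtain ⟨v1, hv1, hv1'⟩ := meas_union hO (X := Cfg (Eu d) × Cfg (Eu d)) (φ := fun _ => a)
        (ψ := fun _ => b) measurable_const measurable_const
      obtain ⟨v, hv, hv'⟩ := meas_union hO hv1 (measurable_fst (α := Cfg (Eu d))
        (β := Cfg (Eu d)))
      have hvpt : ∀ q : Cfg (Eu d) × Cfg (Eu d), pt (v q) = pt a ∪ pt b ∪ pt q.1 := by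
        intro q; rw [hv', hv1']
      have hBm' : MeasurableSet {x : (Cfg (Eu d) × Cfg (Eu d)) × Eu d | x.2 ∈ B0 (pt x.1.1)} := by
        have := meas_nbd_inv hMSum hInvM hInvD
          (φ := fun x : (Cfg (Eu d) × Cfg (Eu d)) × Eu d => v x.1) (hv.comp measurable_fst)
          measurable_snd o m r'
        simp_rw [hvpt] at this
        exact this
      apply measurable_ind
      apply MeasurableSet.inter
      · exact meas_all hMSum (φ := fun q : Cfg (Eu d) × Cfg (Eu d) => q.2) measurable_snd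
          (S := fun q z => z ∉ B0 (pt q.1)) hBm'.compl
      · have hvm : Measurable fun q : Cfg (Eu d) × Cfg (Eu d) =>
            volume (N0 ∩ B0 (pt q.1) ∩ U) := by
          have := measurable_measure_prodMk_left (ν := (volume : Measure (Eu d)))
            (((measurable_snd (α := Cfg (Eu d) × Cfg (Eu d)) hN0m).inter hBm').inter
              (measurable_snd (α := Cfg (Eu d) × Cfg (Eu d)) hU.1))
          exact this
        exact measurableSet_le measurable_const hvm
    have e1 : ∀ c, ind ((a, b, c) ∈ E2) = g (pt c ∩ N0ᶜ) (pt c \ N0ᶜ) := by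
      intro c
      apply ind_congr
      have hBe : B (a, b, c) = B0 (pt c ∩ N0ᶜ) := by
        show nbd r' (inv (pt (w (a, b, c))) o m) = _
        rw [hwpt]
        rfl
      show ((∀ z ∈ pt c, z ∈ N0 → z ∉ B (a, b, c)) ∧
        ENNReal.ofReal q₀ ≤ volume (N0 ∩ B (a, b, c) ∩ U)) ↔ _
      rw [hBe]
      refine and_congr_left fun _ => ?_
      constructor
      · rintro hh z ⟨hz1, hz2⟩
        exact hh z hz1 (not_not.1 hz2)
      · intro hh z hz1 hz2
        exact hh z ⟨hz1, not_not.2 hz2⟩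
    simp_rw [e1]
    rw [(hRes (Eu d) ρs N0ᶜ hN0m.compl).2 g hgm]
    have e2 : ∀ ω : Cfg (Eu d), ∫⁻ ω', g (pt ω ∩ N0ᶜ) (pt ω' \ N0ᶜ) ∂PL ρs
        ≤ ENNReal.ofReal (Real.exp (-(lam₂ * q₀))) := by
      intro ω
      set B1 := B0 (pt ω ∩ N0ᶜ) with hB1
      by_cases hc : ENNReal.ofReal q₀ ≤ volume (N0 ∩ B1 ∩ U)
      · have hB1m : MeasurableSet B1 := by
          apply measurable_nbd_finite
          have hfin : (pt a ∪ pt b ∪ (pt ω ∩ N0ᶜ)).Finite :=
            ((pt_finite a).union (pt_finite b)).union ((pt_finite ω).inter_of_left _)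
          have hL := LF_of_finite hfin
          exact ((hInvD d _ (pt ω) o hL (LF_of_finite (pt_finite ω))).1 m).2.2
        have e3 : ∀ ω', g (pt ω ∩ N0ᶜ) (pt ω' \ N0ᶜ) = ind (pt ω' ∩ (N0 ∩ B1) = ∅) := by
          intro ω'
          apply ind_congr
          constructor
          · rintro ⟨h3, -⟩
            rw [eq_empty_iff_forall_notMem]
            rintro z ⟨hz1, hz2, hz3⟩
            exact h3 z ⟨hz1, not_not.2 hz2⟩ hz3
          · intro h3
            refine ⟨?_, hc⟩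
            rintro z ⟨hz1, hz2⟩ hz3
            have : z ∈ pt ω' ∩ (N0 ∩ B1) := ⟨hz1, not_not.1 hz2, hz3⟩
            rw [h3] at this
            exact this
        simp_rw [e3]
        rw [lintegral_ind]
        · rw [(hCount (Eu d) ρs (N0 ∩ B1) (hN0m.inter hB1m)).1]
          apply ENNReal.ofReal_le_ofReal
          apply Real.exp_le_exp.2
          apply neg_le_neg
          have h4 : ρs (N0 ∩ B1) = lam₂ * volume (N0 ∩ B1 ∩ U) := by
            rw [hρs]
            unfold leb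
            rw [Measure.smul_apply, Measure.restrict_apply (hN0m.inter hB1m), smul_eq_mul]
          have h5 : (lam₂ : ℝ≥0∞) * ENNReal.ofReal q₀ ≤ ρs (N0 ∩ B1) := by
            rw [h4]; gcongr
          have h6 := ENNReal.toReal_mono (measure_ne_top ρs _) h5
          rwa [ENNReal.toReal_mul, ENNReal.toReal_ofReal hq₀, ENNReal.coe_toReal] at h6
        · have : {ω' : Cfg (Eu d) | pt ω' ∩ (N0 ∩ B1) = ∅}
              = {ω' | ∀ z ∈ pt ω', z ∉ N0 ∩ B1} := by
            ext ω'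
            rw [mem_ofPred_eq, mem_ofPred_eq, eq_empty_iff_forall_notMem]
            constructor
            · intro h3 z hz hz'
              exact h3 z ⟨hz, hz'⟩
            · rintro h3 z ⟨hz, hz'⟩
              exact h3 z hz hz'
          rw [this]
          exact meas_all hMSum (φ := fun ω' : Cfg (Eu d) => ω') measurable_id
            (S := fun _ z => z ∉ N0 ∩ B1) (measurable_snd (hN0m.inter hB1m)).compl
      · have e3 : ∀ ω', g (pt ω ∩ N0ᶜ) (pt ω' \ N0ᶜ) = 0 := by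
          intro ω'
          apply ind_not
          rintro ⟨-, h3⟩
          exact hc h3
        simp_rw [e3]
        simp
    calc _ ≤ ∫⁻ _ω : Cfg (Eu d), ENNReal.ofReal (Real.exp (-(lam₂ * q₀))) ∂PL ρs :=
          lintegral_mono e2
      _ = _ := by simp
  calc ∫⁻ a, ∫⁻ q, ind ((a, q) ∈ E2) ∂((PL ρg).prod (PL ρs)) ∂PL ρn
      = ∫⁻ a, ∫⁻ b, ∫⁻ c, ind ((a, b, c) ∈ E2) ∂PL ρs ∂PL ρg ∂PL ρn := by
        apply lintegral_congr; intro a
        have hma : Measurable fun q : Cfg (Eu d) × Cfg (Eu d) => ind ((a, q) ∈ E2) :=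
          hindm.comp measurable_prodMk_left
        rw [lintegral_prod _ hma.aemeasurable]
    _ ≤ ∫⁻ _a, ∫⁻ _b, ENNReal.ofReal (Real.exp (-(lam₂ * q₀))) ∂PL ρg ∂PL ρn := by
        apply lintegral_mono; intro a
        apply lintegral_mono; intro b
        exact hinner a b
    _ = _ := by simp

end

/-- SPR (8.2). -/
theorem spr (hSuper : SuperStatement) (hMecke : MeckeStatement) (hCount : CountStatement)
    (hRes : ResStatement) (hInvD : InvDStatement) (hInvM : InvMStatement) (hConM : ConMStatement)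
    (hMSum : MSumStatement) (hO : MOpsStatement) (hMR : MRestrStatement) (hProb : ProbStatement) :
    SprStatement := by
  intro d ρn ρg _ _ _ _ lam₂ U h r r' q₀ o m n H hd hU hr hrr' hq₀ hle hH
  have := finite_leb (d := d) lam₂ hU.2
  have := noAtoms_leb (d := d) hd lam₂ U
  have hG := green_bound hSuper hMecke hInvD hInvM hConM hMSum hO hProb ρn ρg (leb lam₂ U) h r' o
    m n H hle hH
  have hV := void_bound hCount hRes hInvD hInvM hConM hMSum hO hMR hProb ρn ρg lam₂ U hU r r'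
    q₀ (hr.trans hrr') hq₀ o m
  set μ := (PL ρn).prod ((PL ρg).prod (PL (leb lam₂ U))) with hμ
  have hsub : {q : Cfg (Eu d) × Cfg (Eu d) × Cfg (Eu d) | H (pt q.1 ∪ pt q.2.1 ∪ pt q.2.2) ∧
        (CLr r' (pt q.1 ∪ pt q.2.1 ∪ pt q.2.2)
          (inv (pt q.1 ∪ pt q.2.1 ∪ pt q.2.2) o m)).ncard ≤ n} ⊆
      ({q | H (pt q.1 ∪ pt q.2.1 ∪ pt q.2.2) ∧
        volume (nbd r (LLs r (pt q.1) (pt q.2.1) ∅) ∩
          nbd r' (inv (pt q.1 ∪ pt q.2.1 ∪ pt q.2.2) o m) ∩ U) < ENNReal.ofReal q₀} ∪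
      {q | (∀ z ∈ pt q.2.2, z ∈ nbd r (LLs r (pt q.1) (pt q.2.1) ∅) →
          z ∉ nbd r' (inv (U3 q) o m)) ∧
        ENNReal.ofReal q₀ ≤ volume (nbd r (LLs r (pt q.1) (pt q.2.1) ∅) ∩
          nbd r' (inv (U3 q) o m) ∩ U)}) ∪
      {q | H (U3 q) ∧ (CLr r' (U3 q) (inv (U3 q) o m)).ncard ≤ n ∧
        ∃ g ∈ pt q.2.1, g ∈ CLr r' (U3 q) (inv (U3 q) o m)} := by
    rintro q ⟨hq1, hq2⟩
    by_cases h1 : ∃ z ∈ pt q.2.2, z ∈ nbd r (LLs r (pt q.1) (pt q.2.1) ∅) ∧
        z ∈ nbd r' (inv (U3 q) o m)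
    · right
      obtain ⟨z, hz, hzN, hzK⟩ := h1
      exact ⟨hq1, hq2, green_of_sprinkled hrr' _ _ _ _ z hz hzN hzK⟩
    · left
      push Not at h1
      by_cases h2 : ENNReal.ofReal q₀ ≤ volume (nbd r (LLs r (pt q.1) (pt q.2.1) ∅) ∩
          nbd r' (inv (U3 q) o m) ∩ U)
      · right
        exact ⟨h1, h2⟩
      · left
        exact ⟨hq1, not_le.1 h2⟩
  calc _ ≤ _ := measure_mono hsub
    _ ≤ _ := measure_union_le _ _
    _ ≤ _ := add_le_add (measure_union_le _ _) le_rfl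
    _ ≤ _ := add_le_add (add_le_add le_rfl hV) hG

end Pool.Agent.Lib.MP_5349a4_pr.H53
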