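import Pool.Agent.Lib.MP_5349a4_pr.M.Iface2
import Pool.Agent.Lib.MP_5349a4_pr.M.Base

/-!
# STEP (5.2): `F(x) = sqrt (r + 3 - |x|)` is a strict supersolution
-/

set_option autoImplicit false
open MeasureTheory Set
open scoped ENNReal NNReal

namespace Pool.Agent.Lib.MP_5349a4_pr.H53

/-- `sqrt (1 - u) ≤ 1 - u/2 - u^2/16` on `[-1,1]` -/
theorem sqrt_one_sub_le {u : ℝ} (h1 : -1 ≤ u) (h2 : u ≤ 1) :
    Real.sqrt (1 - u) ≤ 1 - u / 2 - u ^ 2 / 16 := by
  apply Real.sqrt_le_iff.2
  constructor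
  · nlinarith
  · have : (1 - u / 2 - u ^ 2 / 16) ^ 2 - (1 - u) = u ^ 2 * (1 / 8 + u / 16 + u ^ 2 / 256) := by ring
    have h3 : 0 ≤ u ^ 2 * (1 / 8 + u / 16 + u ^ 2 / 256) := by
      apply mul_nonneg (sq_nonneg _)
      nlinarith [sq_nonneg u]
    linarith

/-- pointwise identity used for the integration -/
theorem ofReal_split {u : ℝ} (h1 : -1 ≤ u) (h2 : u ≤ 1) :
    ENNReal.ofReal (1 - u / 2 - u ^ 2 / 16) + ENNReal.ofReal (1 / 2) * ENNReal.ofReal u
      + ENNReal.ofReal (1 / 16) * ENNReal.ofReal (u ^ 2)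
      = 1 + ENNReal.ofReal (1 / 2) * ENNReal.ofReal (-u) := by
  have hA : 0 ≤ 1 - u / 2 - u ^ 2 / 16 := by nlinarith
  have hB : 0 ≤ (1 / 16 : ℝ) * u ^ 2 := by positivity
  rw [← ENNReal.ofReal_mul (by norm_num : (0:ℝ) ≤ 1 / 16)]
  rcases le_total 0 u with h | h
  · rw [← ENNReal.ofReal_mul (by norm_num : (0:ℝ) ≤ 1 / 2),
      ENNReal.ofReal_of_nonpos (by linarith : -u ≤ 0), mul_zero, add_zero,
      ← ENNReal.ofReal_add hA (by positivity), ← ENNReal.ofReal_add (by positivity) hB,
      show 1 - u / 2 - u ^ 2 / 16 + 1 / 2 * u + 1 / 16 * u ^ 2 = 1 by ring, ENNReal.ofReal_one]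
  · rw [ENNReal.ofReal_of_nonpos h, mul_zero, add_zero,
      ← ENNReal.ofReal_mul (by norm_num : (0:ℝ) ≤ 1 / 2), ← ENNReal.ofReal_one,
      ← ENNReal.ofReal_add hA hB, ← ENNReal.ofReal_add zero_le_one (by linarith)]
    congr 1
    ring

section
variable {d : ℕ}

/-- the direction of `x` (any unit vector if `x = 0`) -/
theorem exists_dir (hd : 1 ≤ d) (x : Eu d) :
    ∃ e : Eu d, ‖e‖ = 1 ∧ ∀ y : Eu d, ‖x‖ + inner ℝ y e ≤ ‖x + y‖ := by
  rcases eq_or_ne x 0 with rfl | hx
  · refine ⟨EuclideanSpace.single ⟨0, by omega⟩ (1 : ℝ), by simp, fun y => ?_⟩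
    have := real_inner_le_norm y (EuclideanSpace.single (⟨0, by omega⟩ : Fin d) (1 : ℝ))
    simpa using this
  · have hx' : ‖x‖ ≠ 0 := norm_ne_zero_iff.2 hx
    refine ⟨(‖x‖⁻¹ : ℝ) • x, by rw [norm_smul, norm_inv, norm_norm, inv_mul_cancel₀ hx'],
      fun y => ?_⟩
    have h1 := real_inner_le_norm (x + y) ((‖x‖⁻¹ : ℝ) • x)
    rw [norm_smul, norm_inv, norm_norm, inv_mul_cancel₀ hx', mul_one, inner_add_left,
      real_inner_smul_right, real_inner_self_eq_norm_sq] at h1
    have h2 : ‖x‖⁻¹ * ‖x‖ ^ 2 = ‖x‖ := by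
      rw [sq, ← mul_assoc, inv_mul_cancel₀ hx', one_mul]
    rwa [h2] at h1

/-- the lower bound for the second moment in the case `s = 0` -/
theorem ball_moment (hd : 1 ≤ d) (lam : ℝ≥0) :
    (lam : ℝ≥0∞) * volume (bal (0 : Eu d) 1) ≤
      8 * ∫⁻ y : Eu d, (lam * ind (0 < ‖y‖ ∧ ‖y‖ ≤ 1)) * ENNReal.ofReal (‖y‖ ^ 2) := by
  set v := volume (bal (0 : Eu d) 1) with hv
  have hvt : v ≠ ∞ := by
    rw [hv]; exact Metric.isBounded_closedBall.measure_lt_top.ne
  -- the ball of radius one half has at most half of the volume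
  have hhalf : volume (bal (0 : Eu d) (1 / 2)) ≤ v / 2 := by
    have hfin : Module.finrank ℝ (Eu d) = d := by simp
    have := Measure.addHaar_closedBall (volume : Measure (Eu d)) (0 : Eu d)
      (by norm_num : (0 : ℝ) ≤ 1 / 2)
    unfold bal at hv ⊢
    rw [this, hfin, hv, Measure.addHaar_closedBall _ _ zero_le_one, one_pow, ENNReal.ofReal_one,
      one_mul, ENNReal.div_eq_inv_mul]
    gcongr
    rw [show (2 : ℝ≥0∞)⁻¹ = ENNReal.ofReal (1 / 2) by
      rw [ENNReal.ofReal_div_of_pos (by norm_num)]; simp]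
    apply ENNReal.ofReal_le_ofReal
    calc (1 / 2 : ℝ) ^ d ≤ (1 / 2) ^ 1 := pow_le_pow_of_le_one (by norm_num) (by norm_num) hd
      _ = 1 / 2 := pow_one _
  have hshell : v / 2 ≤ volume (bal (0 : Eu d) 1 \ bal 0 (1 / 2)) := by
    have h1 : v ≤ volume (bal (0 : Eu d) 1 \ bal 0 (1 / 2)) + volume (bal (0 : Eu d) (1 / 2)) := by
      rw [hv]
      refine (measure_mono ?_).trans (measure_union_le _ _)
      intro y hy
      by_cases h : y ∈ bal (0 : Eu d) (1 / 2)
      · exact Or.inr h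
      · exact Or.inl ⟨hy, h⟩
    have h2 : v / 2 + v / 2 ≤ volume (bal (0 : Eu d) 1 \ bal 0 (1 / 2)) + v / 2 := by
      rw [ENNReal.add_halves]
      exact h1.trans (by gcongr)
    exact (ENNReal.add_le_add_iff_right (ENNReal.div_ne_top hvt (by norm_num))).1 h2
  have hms : MeasurableSet (bal (0 : Eu d) 1 \ bal 0 (1 / 2)) :=
    Metric.isClosed_closedBall.measurableSet.diff Metric.isClosed_closedBall.measurableSet
  have hI : (lam : ℝ≥0∞) * volume (bal (0 : Eu d) 1 \ bal 0 (1 / 2)) * ENNReal.ofReal (1 / 4) ≤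
      ∫⁻ y : Eu d, (lam * ind (0 < ‖y‖ ∧ ‖y‖ ≤ 1)) * ENNReal.ofReal (‖y‖ ^ 2) := by
    calc (lam : ℝ≥0∞) * volume (bal (0 : Eu d) 1 \ bal 0 (1 / 2)) * ENNReal.ofReal (1 / 4)
        = ∫⁻ y in (bal (0 : Eu d) 1 \ bal 0 (1 / 2)), (lam : ℝ≥0∞) * ENNReal.ofReal (1 / 4) := by
          rw [lintegral_const, Measure.restrict_apply_univ]; ring
      _ ≤ ∫⁻ y in (bal (0 : Eu d) 1 \ bal 0 (1 / 2)),
            (lam * ind (0 < ‖y‖ ∧ ‖y‖ ≤ 1)) * ENNReal.ofReal (‖y‖ ^ 2) := by
          apply setLIntegral_mono' hms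
          intro y hy
          have hy1 : ‖y‖ ≤ 1 := by
            have := hy.1
            unfold bal at this
            rwa [mem_closedBall_zero_iff] at this
          have hy2 : 1 / 2 < ‖y‖ := by
            have := hy.2
            unfold bal at this
            rw [mem_closedBall_zero_iff, not_le] at this
            exact this
          rw [ind_of ⟨by linarith, hy1⟩, mul_one]
          gcongr
          nlinarith
      _ ≤ _ := setLIntegral_le_lintegral _ _
  have h4 : ENNReal.ofReal (1 / 4) = (4 : ℝ≥0∞)⁻¹ := by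
    rw [ENNReal.ofReal_div_of_pos (by norm_num)]; simp
  calc (lam : ℝ≥0∞) * v = 8 * ((lam : ℝ≥0∞) * (v / 2) * (4 : ℝ≥0∞)⁻¹) := by
        rw [ENNReal.div_eq_inv_mul]
        have : (8 : ℝ≥0∞) * (2⁻¹ * 4⁻¹) = 1 := by
          rw [← ENNReal.mul_inv (by norm_num) (by norm_num)]
          rw [show (2 * 4 : ℝ≥0∞) = 8 by norm_num]
          exact ENNReal.mul_inv_cancel (by norm_num) (by norm_num)
        calc (lam : ℝ≥0∞) * v = (8 * (2⁻¹ * 4⁻¹)) * (lam * v) := by rw [this, one_mul]
          _ = _ := by ring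
    _ ≤ 8 * ((lam : ℝ≥0∞) * volume (bal (0 : Eu d) 1 \ bal 0 (1 / 2)) * ENNReal.ofReal (1 / 4)) := by
        rw [h4]; gcongr
    _ ≤ _ := by gcongr

/-- lower bound for the second moment in both cases -/
theorem moment_bound (hd : 1 ≤ d) (hS : SlbStatement) (hT : TauFacts d) (lam : ℝ≥0) (r : ℝ)
    (x : Eu d) (hx : ‖x‖ ≤ r) :
    phi d lam (sr r x) ≤ 200 * ENNReal.ofReal (1 / (r - ‖x‖ + 3) ^ 2) *
      ∫⁻ y : Eu d, ex lam (sr r x) y * ENNReal.ofReal (‖y‖ ^ 2) := by
  obtain ⟨-, hex, hphi0, hex0, -, -⟩ := hS d hd hT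
  set h := r - ‖x‖ with hh
  have hh0 : 0 ≤ h := by rw [hh]; linarith
  by_cases hc : h < 2
  · have hs : sr r x = 0 := by unfold sr; rw [if_pos (by rw [← hh]; exact hc)]
    rw [hs, hphi0 lam]
    have h1 := ball_moment hd lam
    have h2 : (8 : ℝ≥0∞) ≤ 200 * ENNReal.ofReal (1 / (h + 3) ^ 2) := by
      rw [show (8 : ℝ≥0∞) = ENNReal.ofReal 8 by norm_num,
        show (200 : ℝ≥0∞) = ENNReal.ofReal 200 by norm_num,
        ← ENNReal.ofReal_mul (by norm_num : (0:ℝ) ≤ 200)]
      apply ENNReal.ofReal_le_ofReal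
      have h3 : (h + 3) ^ 2 ≤ 25 := by nlinarith
      have h4 : (1 : ℝ) / 25 ≤ 1 / (h + 3) ^ 2 :=
        one_div_le_one_div_of_le (by positivity) h3
      linarith
    calc (lam : ℝ≥0∞) * volume (bal (0 : Eu d) 1)
        ≤ 8 * ∫⁻ y : Eu d, (lam * ind (0 < ‖y‖ ∧ ‖y‖ ≤ 1)) * ENNReal.ofReal (‖y‖ ^ 2) := h1
      _ ≤ 200 * ENNReal.ofReal (1 / (h + 3) ^ 2) *
          ∫⁻ y : Eu d, (lam * ind (0 < ‖y‖ ∧ ‖y‖ ≤ 1)) * ENNReal.ofReal (‖y‖ ^ 2) := by gcongr
      _ = _ := by
          congr 2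
          funext y
          rw [hex0 lam y]
  · have hc' : 2 ≤ h := not_lt.1 hc
    have hs : sr r x = h / 2 := by unfold sr; rw [if_neg (by rw [← hh]; exact hc)]
    rw [hs]
    have hs0 : 0 ≤ h / 2 := by linarith
    obtain ⟨hm, -, hsupp⟩ := hex lam (h / 2) hs0
    have h1 : ENNReal.ofReal (h ^ 2 / 4) * phi d lam (h / 2) ≤
        ∫⁻ y : Eu d, ex lam (h / 2) y * ENNReal.ofReal (‖y‖ ^ 2) := by
      unfold phi
      rw [← lintegral_const_mul _ hm]
      apply lintegral_mono
      intro y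
      show ENNReal.ofReal (h ^ 2 / 4) * ex lam (h / 2) y ≤
        ex lam (h / 2) y * ENNReal.ofReal (‖y‖ ^ 2)
      rw [mul_comm]
      by_cases hy : ex lam (h / 2) y = 0
      · simp [hy]
      · have := (hsupp y hy).1
        gcongr
        nlinarith
    have h2 : (1 : ℝ≥0∞) ≤ 200 * ENNReal.ofReal (1 / (h + 3) ^ 2) * ENNReal.ofReal (h ^ 2 / 4) := by
      rw [show (200 : ℝ≥0∞) = ENNReal.ofReal 200 by norm_num,
        ← ENNReal.ofReal_mul (by norm_num : (0:ℝ) ≤ 200),
        ← ENNReal.ofReal_mul (by positivity), ← ENNReal.ofReal_one]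
      apply ENNReal.ofReal_le_ofReal
      have h3 : (h + 3) ^ 2 ≤ 25 * (h ^ 2 / 4) := by nlinarith
      have h4 : (0 : ℝ) < (h + 3) ^ 2 := by positivity
      rw [mul_one_div, div_mul_eq_mul_div, le_div_iff₀ h4]
      nlinarith
    calc phi d lam (h / 2) = 1 * phi d lam (h / 2) := (one_mul _).symm
      _ ≤ (200 * ENNReal.ofReal (1 / (h + 3) ^ 2) * ENNReal.ofReal (h ^ 2 / 4)) *
            phi d lam (h / 2) := by gcongr
      _ = 200 * ENNReal.ofReal (1 / (h + 3) ^ 2) *
            (ENNReal.ofReal (h ^ 2 / 4) * phi d lam (h / 2)) := by ring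
      _ ≤ _ := by gcongr

end

/-- STEP (5.2). -/
theorem step (hS : SlbStatement) (hR : RotStatement) : StepStatement := by
  intro d hd hT lam hH r x hx
  obtain ⟨e, he, hdir⟩ := exists_dir hd x
  set h := r - ‖x‖ with hh
  have hh0 : 0 ≤ h := by rw [hh]; linarith
  set s := sr r x with hs
  have hs0 : 0 ≤ s := by
    rw [hs]; unfold sr; split_ifs
    · exact le_refl _
    · linarith
  have hsc : s + 1 ≤ h + 3 := by
    rw [hs]; unfold sr; split_ifs <;> linarith
  obtain ⟨-, hex, -, -, -, -⟩ := hS d hd hT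
  obtain ⟨hm, hinv, hsupp⟩ := hex lam s hs0
  obtain ⟨hr1, hr2⟩ := hR d hd (ex lam s) hm hinv e he
  set c : ℝ := h + 3 with hcdef
  have hc : 0 < c := by linarith
  -- the function `u`
  have hum : Measurable fun y : Eu d => inner ℝ y e / c := by
    apply Measurable.div_const
    exact (continuous_id.inner continuous_const).measurable
  have hu : ∀ y : Eu d, ex lam s y ≠ 0 → -1 ≤ inner ℝ y e / c ∧ inner ℝ y e / c ≤ 1 := by
    intro y hy
    have h1 := (hsupp y hy).2
    have h2 : |inner ℝ y e| ≤ ‖y‖ := by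
      have := abs_real_inner_le_norm y e
      rwa [he, mul_one] at this
    obtain ⟨h3, h4⟩ := abs_le.1 (h2.trans (h1.trans hsc))
    constructor
    · rw [le_div_iff₀ hc]; linarith
    · rw [div_le_iff₀ hc]; linarith
  set I := ∫⁻ y : Eu d, ex lam s y *
    ENNReal.ofReal (1 - inner ℝ y e / c / 2 - (inner ℝ y e / c) ^ 2 / 16) with hI
  set a := ∫⁻ y : Eu d, ex lam s y * ENNReal.ofReal (inner ℝ y e / c) with ha
  set a' := ∫⁻ y : Eu d, ex lam s y * ENNReal.ofReal (-(inner ℝ y e / c)) with ha'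
  set b := ∫⁻ y : Eu d, ex lam s y * ENNReal.ofReal ((inner ℝ y e / c) ^ 2) with hb
  have hphi : phi d lam s ≤ 1 + (gd d : ℝ≥0∞) := hH s hs0
  have hphit : phi d lam s ≠ ∞ := by
    refine ne_top_of_le_ne_top ?_ hphi
    exact ENNReal.add_ne_top.2 ⟨ENNReal.one_ne_top, ENNReal.coe_ne_top⟩
  have m1 : Measurable fun y : Eu d => ex lam s y *
      ENNReal.ofReal (1 - inner ℝ y e / c / 2 - (inner ℝ y e / c) ^ 2 / 16) :=
    hm.mul (ENNReal.measurable_ofReal.comp
      ((measurable_const.sub (hum.div_const 2)).sub ((hum.pow_const 2).div_const 16)))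
  -- integrated identity
  have hid : I + ENNReal.ofReal (1 / 2) * a + ENNReal.ofReal (1 / 16) * b
      = phi d lam s + ENNReal.ofReal (1 / 2) * a' := by
    have m2 : Measurable fun y : Eu d => ex lam s y * ENNReal.ofReal (inner ℝ y e / c) :=
      hm.mul (ENNReal.measurable_ofReal.comp hum)
    have m3 : Measurable fun y : Eu d => ex lam s y * ENNReal.ofReal ((inner ℝ y e / c) ^ 2) :=
      hm.mul (ENNReal.measurable_ofReal.comp (hum.pow_const 2))
    have m4 : Measurable fun y : Eu d => ex lam s y * ENNReal.ofReal (-(inner ℝ y e / c)) :=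
      hm.mul (ENNReal.measurable_ofReal.comp hum.neg)
    rw [hI, ha, hb, ha']
    unfold phi
    have m12 : Measurable fun y : Eu d => ex lam s y *
        ENNReal.ofReal (1 - inner ℝ y e / c / 2 - (inner ℝ y e / c) ^ 2 / 16)
        + ENNReal.ofReal (1 / 2) * (ex lam s y * ENNReal.ofReal (inner ℝ y e / c)) :=
      m1.add (m2.const_mul _)
    rw [← lintegral_const_mul _ m2, ← lintegral_const_mul _ m3, ← lintegral_const_mul _ m4,
      ← lintegral_add_left m1, ← lintegral_add_left m12,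
      ← lintegral_add_left hm]
    apply lintegral_congr
    intro y
    by_cases hy : ex lam s y = 0
    · simp [hy]
    · obtain ⟨h1, h2⟩ := hu y hy
      have := ofReal_split h1 h2
      calc _ = ex lam s y * (ENNReal.ofReal (1 - inner ℝ y e / c / 2 - (inner ℝ y e / c) ^ 2 / 16)
            + ENNReal.ofReal (1 / 2) * ENNReal.ofReal (inner ℝ y e / c)
            + ENNReal.ofReal (1 / 16) * ENNReal.ofReal ((inner ℝ y e / c) ^ 2)) := by ring
        _ = ex lam s y * (1 + ENNReal.ofReal (1 / 2) * ENNReal.ofReal (-(inner ℝ y e / c))) := by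
            rw [this]
        _ = _ := by ring
  have haa' : a = a' := by
    have h1 : ∀ y : Eu d, ENNReal.ofReal (inner ℝ y e / c)
        = ENNReal.ofReal (1 / c) * ENNReal.ofReal (inner ℝ y e) := by
      intro y
      rw [← ENNReal.ofReal_mul (by positivity)]
      congr 1; ring
    have h2 : ∀ y : Eu d, ENNReal.ofReal (-(inner ℝ y e / c))
        = ENNReal.ofReal (1 / c) * ENNReal.ofReal (-(inner ℝ y e)) := by
      intro y
      rw [← ENNReal.ofReal_mul (by positivity)]
      congr 1; ring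
    have hin : Measurable fun y : Eu d => (inner ℝ y e : ℝ) :=
      (continuous_id.inner continuous_const).measurable
    have q1 : Measurable fun y : Eu d => ex lam s y * ENNReal.ofReal (inner ℝ y e) :=
      hm.mul (ENNReal.measurable_ofReal.comp hin)
    have q2 : Measurable fun y : Eu d => ex lam s y * ENNReal.ofReal (-(inner ℝ y e)) :=
      hm.mul (ENNReal.measurable_ofReal.comp hin.neg)
    have e1 : a = ENNReal.ofReal (1 / c) * ∫⁻ y : Eu d, ex lam s y * ENNReal.ofReal (inner ℝ y e) := by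
      rw [ha, ← lintegral_const_mul _ q1]
      apply lintegral_congr; intro y; rw [h1 y]; ring
    have e2 : a' = ENNReal.ofReal (1 / c) *
        ∫⁻ y : Eu d, ex lam s y * ENNReal.ofReal (-(inner ℝ y e)) := by
      rw [ha', ← lintegral_const_mul _ q2]
      apply lintegral_congr; intro y; rw [h2 y]; ring
    rw [e1, e2, hr2]
  have hat : ENNReal.ofReal (1 / 2) * a' ≠ ∞ := by
    apply ENNReal.mul_ne_top ENNReal.ofReal_ne_top
    refine ne_top_of_le_ne_top hphit ?_
    rw [ha']
    unfold phi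
    apply lintegral_mono
    intro y
    by_cases hy : ex lam s y = 0
    · simp [hy]
    · calc ex lam s y * ENNReal.ofReal (-(inner ℝ y e / c)) ≤ ex lam s y * 1 := by
            gcongr
            rw [← ENNReal.ofReal_one]
            exact ENNReal.ofReal_le_ofReal (by linarith [(hu y hy).1])
        _ = _ := mul_one _
  have hIb : I + ENNReal.ofReal (1 / 16) * b = phi d lam s := by
    rw [haa'] at hid
    have : (I + ENNReal.ofReal (1 / 16) * b) + ENNReal.ofReal (1 / 2) * a'
        = phi d lam s + ENNReal.ofReal (1 / 2) * a' := by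
      rw [← hid]; ring
    exact (ENNReal.add_left_inj hat).1 this
  -- the second moment
  have hb2 : (d : ℝ≥0∞) * b = ENNReal.ofReal (1 / c ^ 2) *
      ∫⁻ y : Eu d, ex lam s y * ENNReal.ofReal (‖y‖ ^ 2) := by
    rw [← hr1]
    have h1 : ∀ y : Eu d, ENNReal.ofReal ((inner ℝ y e / c) ^ 2)
        = ENNReal.ofReal (1 / c ^ 2) * ENNReal.ofReal ((inner ℝ y e) ^ 2) := by
      intro y
      rw [← ENNReal.ofReal_mul (by positivity)]
      congr 1; field_simp
    have hin : Measurable fun y : Eu d => (inner ℝ y e : ℝ) ^ 2 :=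
      (continuous_id.inner continuous_const).measurable.pow_const 2
    have q1 : Measurable fun y : Eu d => ex lam s y * ENNReal.ofReal ((inner ℝ y e : ℝ) ^ 2) :=
      hm.mul (ENNReal.measurable_ofReal.comp hin)
    have e1 : b = ENNReal.ofReal (1 / c ^ 2) *
        ∫⁻ y : Eu d, ex lam s y * ENNReal.ofReal ((inner ℝ y e) ^ 2) := by
      rw [hb, ← lintegral_const_mul _ q1]
      apply lintegral_congr; intro y; rw [h1 y]; ring
    rw [e1]; ring
  have hmom : phi d lam s ≤ 3200 * d * (ENNReal.ofReal (1 / 16) * b) := by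
    have h1 := moment_bound hd hS hT lam r x hx
    rw [← hs, ← hh, ← hcdef, mul_assoc, ← hb2] at h1
    refine h1.trans (le_of_eq ?_)
    have h16 : ENNReal.ofReal (1 / 16) = (16 : ℝ≥0∞)⁻¹ := by
      rw [ENNReal.ofReal_div_of_pos (by norm_num)]; simp
    have : (200 : ℝ≥0∞) = 3200 * 16⁻¹ := by
      rw [show (3200 : ℝ≥0∞) = 200 * 16 by norm_num, mul_assoc,
        ENNReal.mul_inv_cancel (by norm_num) (by norm_num), mul_one]
    rw [h16, this]; ring
  have hIle : I ≤ ((1 - gd d : ℝ≥0) : ℝ≥0∞) := by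
    set B := ENNReal.ofReal (1 / 16) * b with hB
    have hIt : I ≠ ∞ := ne_top_of_le_ne_top hphit (by rw [← hIb]; exact le_self_add)
    have hBt : B ≠ ∞ := ne_top_of_le_ne_top hphit (by rw [← hIb]; exact le_add_self)
    have h1 : I.toReal + B.toReal = (phi d lam s).toReal := by
      rw [← ENNReal.toReal_add hIt hBt, hIb]
    have h2 : (phi d lam s).toReal ≤ 3200 * d * B.toReal := by
      have := ENNReal.toReal_mono (ENNReal.mul_ne_top (ENNReal.mul_ne_top (by norm_num)
        (ENNReal.natCast_ne_top d)) hBt) hmom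
      rw [ENNReal.toReal_mul, ENNReal.toReal_mul] at this
      simpa using this
    have h3 : (phi d lam s).toReal ≤ 1 + (gd d : ℝ) := by
      have := ENNReal.toReal_mono (by
        exact ENNReal.add_ne_top.2 ⟨ENNReal.one_ne_top, ENNReal.coe_ne_top⟩) hphi
      rw [ENNReal.toReal_add ENNReal.one_ne_top ENNReal.coe_ne_top] at this
      simpa using this
    have hd' : (1 : ℝ) ≤ d := by exact_mod_cast hd
    have hg : (gd d : ℝ) = 1 / (6400 * d) := by
      unfold gd; push_cast; rfl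
    have hg1 : (gd d : ℝ) ≤ 1 := by
      rw [hg, div_le_one (by positivity)]; nlinarith
    have hg0 : 0 ≤ (gd d : ℝ) := NNReal.coe_nonneg _
    have h4 : 2 * (gd d : ℝ) * (phi d lam s).toReal ≤ B.toReal := by
      have : 2 * (gd d : ℝ) * (3200 * d * B.toReal) = B.toReal := by
        rw [hg]; field_simp; ring
      calc 2 * (gd d : ℝ) * (phi d lam s).toReal ≤ 2 * (gd d : ℝ) * (3200 * d * B.toReal) := by
            gcongr
        _ = B.toReal := this
    have h5 : I.toReal ≤ 1 - (gd d : ℝ) := by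
      have h6 : I.toReal ≤ (phi d lam s).toReal * (1 - 2 * gd d) := by linarith
      have h7 : (0:ℝ) ≤ 1 - 2 * gd d := by
        rw [hg]
        have : 2 * (1 / (6400 * (d:ℝ))) = 1 / (3200 * d) := by field_simp; ring
        rw [this, sub_nonneg, div_le_one (by positivity)]; nlinarith
      calc I.toReal ≤ (phi d lam s).toReal * (1 - 2 * gd d) := h6
        _ ≤ (1 + gd d) * (1 - 2 * gd d) := by gcongr
        _ ≤ 1 - (gd d : ℝ) := by nlinarith
    rw [← ENNReal.ofReal_toReal hIt]
    rw [← ENNReal.ofReal_coe_nnreal]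
    apply ENNReal.ofReal_le_ofReal
    rw [NNReal.coe_sub (by exact_mod_cast hg1)]
    simpa using h5
  -- the pointwise bound
  have hFx : Fr r x = ENNReal.ofReal (Real.sqrt c) := by
    unfold Fr
    rw [ind_of (by linarith : ‖x‖ ≤ r + 1), mul_one, hcdef, hh]
    congr 2; ring
  calc ∫⁻ y, ex lam s y * Fr r (x + y)
      ≤ ∫⁻ y, ENNReal.ofReal (Real.sqrt c) * (ex lam s y *
          ENNReal.ofReal (1 - inner ℝ y e / c / 2 - (inner ℝ y e / c) ^ 2 / 16)) := by
        apply lintegral_mono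
        intro y
        by_cases hy : ex lam s y = 0
        · simp [hy]
        · obtain ⟨h1, h2⟩ := hu y hy
          have h3 : Fr r (x + y) ≤ ENNReal.ofReal (Real.sqrt c) *
              ENNReal.ofReal (1 - inner ℝ y e / c / 2 - (inner ℝ y e / c) ^ 2 / 16) := by
            rw [← ENNReal.ofReal_mul (Real.sqrt_nonneg _)]
            unfold Fr
            calc ENNReal.ofReal (Real.sqrt (r + 3 - ‖x + y‖)) * ind (‖x + y‖ ≤ r + 1)
                ≤ ENNReal.ofReal (Real.sqrt (r + 3 - ‖x + y‖)) * 1 := by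
                  gcongr; exact ind_le_one _
              _ ≤ _ := by
                  rw [mul_one]
                  apply ENNReal.ofReal_le_ofReal
                  calc Real.sqrt (r + 3 - ‖x + y‖) ≤ Real.sqrt (c * (1 - inner ℝ y e / c)) := by
                        apply Real.sqrt_le_sqrt
                        have h4 := hdir y
                        have h5 : c * (1 - inner ℝ y e / c) = c - inner ℝ y e := by
                          field_simp
                        rw [h5, hcdef, hh]; linarith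
                    _ = Real.sqrt c * Real.sqrt (1 - inner ℝ y e / c) :=
                        Real.sqrt_mul hc.le _
                    _ ≤ _ := by
                        gcongr
                        exact sqrt_one_sub_le h1 h2
          calc ex lam s y * Fr r (x + y) ≤ ex lam s y * (ENNReal.ofReal (Real.sqrt c) *
              ENNReal.ofReal (1 - inner ℝ y e / c / 2 - (inner ℝ y e / c) ^ 2 / 16)) := by gcongr
            _ = _ := by ring
    _ = ENNReal.ofReal (Real.sqrt c) * I := by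
        rw [hI, ← lintegral_const_mul _ m1]
    _ ≤ ENNReal.ofReal (Real.sqrt c) * ((1 - gd d : ℝ≥0) : ℝ≥0∞) := by gcongr
    _ = (1 - gd d : ℝ≥0) * Fr r x := by rw [hFx, mul_comm]

end Pool.Agent.Lib.MP_5349a4_pr.H53
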